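import Pool.Agent.Helper84.OV.Zero

set_option autoImplicit false

open Finset

namespace Pool.Agent.Helper83.OV.RES

open Pool.Agent.Helper84.OV

open scoped Polynomial

lemma n1_one : n1 (1 : ℤ[X]) = 1 := by
  rw [← Polynomial.C_1, ← Polynomial.monomial_zero_left, n1_monomial]; rfl

lemma n1_prod {ι : Type*} (s : Finset ι) (f : ι → ℤ[X]) : n1 (∏ i ∈ s, f i) ≤ ∏ i ∈ s, n1 (f i) := by
  classical
  induction s using Finset.induction_on with
  | empty => simp [n1_one]
  | insert a s ha ih =>
    rw [prod_insert ha, prod_insert ha]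
    exact (n1_mul _ _).trans (Nat.mul_le_mul_left _ ih)

/-- the bound for a determinant by column sums -/
lemma n1_det {m : ℕ} (M : Matrix (Fin m) (Fin m) ℤ[X]) :
    n1 M.det ≤ ∏ i, ∑ k, n1 (M k i) := by
  classical
  rw [Matrix.det_apply]
  refine (n1_sum _ _).trans ?_
  have h1 : ∀ σ : Equiv.Perm (Fin m), n1 (Equiv.Perm.sign σ • ∏ i, M (σ i) i) ≤ ∏ i, n1 (M (σ i) i) := by
    intro σ
    rcases Int.units_eq_one_or (Equiv.Perm.sign σ) with h | h
    · rw [h, one_smul]; exact n1_prod _ _
    · rw [h, Units.neg_smul, one_smul, n1_neg]; exact n1_prod _ _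
  refine (sum_le_sum fun σ _ => h1 σ).trans ?_
  rw [prod_univ_sum]
  have h2 : ∑ σ : Equiv.Perm (Fin m), ∏ i, n1 (M (σ i) i) =
      ∑ p ∈ (univ : Finset (Equiv.Perm (Fin m))).map
        ⟨fun σ : Equiv.Perm (Fin m) => (σ : Fin m → Fin m), fun σ τ h => Equiv.ext fun x => congrFun h x⟩, ∏ i, n1 (M (p i) i) := by
    rw [sum_map]; rfl
  rw [h2]
  refine sum_le_sum_of_subset ?_
  intro p _
  simp

/-- the resultant is not zero -/
lemma res_ne_zero (S G : R2) (n : ℕ) (hG : Irreducible G) (hd : 1 ≤ G.natDegree) (hn : S.natDegree ≤ n)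
    (hGS : ¬ G ∣ S) : Polynomial.resultant G S G.natDegree n ≠ 0 := by
  obtain ⟨k, rfl⟩ := Nat.exists_eq_add_of_le hn
  rw [Polynomial.resultant_add_right_deg _ _ _ _ _ le_rfl]
  have hG0 : G ≠ 0 := hG.ne_zero
  have hlc : G.coeff G.natDegree ≠ 0 := by
    rw [Polynomial.coeff_natDegree]; exact Polynomial.leadingCoeff_ne_zero.2 hG0
  refine mul_ne_zero (pow_ne_zero _ hlc) ?_
  intro h0
  let K := FractionRing ℤ[X]
  let φ : ℤ[X] →+* K := algebraMap ℤ[X] K
  have hφ : Function.Injective φ := IsFractionRing.injective ℤ[X] K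
  have hprim : G.IsPrimitive := hG.isPrimitive (by omega)
  have h1 : Polynomial.resultant (G.map φ) (S.map φ) = 0 := by
    have := Polynomial.resultant_map_map G S G.natDegree S.natDegree φ
    rw [h0, map_zero] at this
    rw [Polynomial.natDegree_map_eq_of_injective hφ, Polynomial.natDegree_map_eq_of_injective hφ]
    exact this
  have h2 := (Polynomial.resultant_eq_zero_iff.1 h1).2
  have hirr : Irreducible (G.map φ) :=
    (hprim.irreducible_iff_irreducible_map_fraction_map (K := K)).1 hG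
  have h3 : G.map φ ∣ S.map φ := by
    by_contra h
    exact h2 ((hirr.coprime_iff_not_dvd).2 h)
  -- Gauss
  have hS : S = Polynomial.C S.content * S.primPart := Polynomial.eq_C_content_mul_primPart S
  have hS0 : S ≠ 0 := fun h => hGS (h ▸ dvd_zero _)
  have hc0 : φ S.content ≠ 0 := by
    intro h
    have := hφ (h.trans (map_zero φ).symm)
    exact hS0 (Polynomial.content_eq_zero_iff.1 this)
  have h4 : G.map φ ∣ S.primPart.map φ := by
    rw [hS, Polynomial.map_mul, Polynomial.map_C] at h3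
    have hu : IsUnit (Polynomial.C (φ S.content)) := Polynomial.isUnit_C.2 (isUnit_iff_ne_zero.2 hc0)
    exact (hu.dvd_mul_left).1 h3
  have h5 : G ∣ S.primPart :=
    (Polynomial.IsPrimitive.dvd_iff_fraction_map_dvd_fraction_map K hprim).2 h4
  exact hGS (h5.trans ⟨Polynomial.C S.content, by rw [mul_comm]; exact hS⟩)

lemma col_sum {m : ℕ} (F : R2) (f : Fin m → ℤ[X]) (j e : ℕ)
    (hf : ∀ i : Fin m, f i = if (i : ℕ) ∈ Set.Icc j (j + e) then F.coeff (i - j) else 0) :
    ∑ i, n1 (f i) ≤ nrm F := by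
  classical
  have h1 : ∑ i : Fin m, n1 (f i) ≤ ∑ i ∈ (univ : Finset (Fin m)).filter (fun i : Fin m => j ≤ (i : ℕ)),
      n1 (F.coeff ((i : ℕ) - j)) := by
    rw [sum_filter]
    refine sum_le_sum fun i _ => ?_
    rw [hf i]
    by_cases h : j ≤ (i : ℕ)
    · rw [if_pos h]
      split_ifs
      · exact le_rfl
      · rw [n1_zero]; exact Nat.zero_le _
    · rw [if_neg h, if_neg (fun h' => h h'.1), n1_zero]
  refine h1.trans ?_
  have h2 : ∑ i ∈ (univ : Finset (Fin m)).filter (fun i : Fin m => j ≤ (i : ℕ)), n1 (F.coeff ((i : ℕ) - j)) =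
      ∑ k ∈ ((univ : Finset (Fin m)).filter (fun i : Fin m => j ≤ (i : ℕ))).image (fun i : Fin m => (i : ℕ) - j),
        n1 (F.coeff k) := by
    rw [sum_image]
    intro a ha b hb hab
    have ha' := (mem_filter.1 (mem_coe.1 ha)).2
    have hb' := (mem_filter.1 (mem_coe.1 hb)).2
    have hab' : (a : ℕ) - j = (b : ℕ) - j := hab
    exact Fin.ext (by omega)
  rw [h2]
  rw [nrm_eq F (F.support ∪ ((univ : Finset (Fin m)).filter (fun i : Fin m => j ≤ (i : ℕ))).image
    (fun i : Fin m => (i : ℕ) - j)) subset_union_left]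
  exact sum_le_sum_of_subset subset_union_right

theorem t : S_RES := by
  intro S G n hG hd hn hGS
  obtain ⟨p, q, -, -, e⟩ := Polynomial.exists_mul_add_mul_eq_C_resultant G S (m := G.natDegree) (n := n)
    le_rfl hn (Or.inl (by omega))
  refine ⟨Polynomial.resultant G S G.natDegree n, q, p, res_ne_zero S G n hG hd hn hGS, ?_, ?_⟩
  · rw [← e]; ring
  · rw [Polynomial.resultant]
    refine (n1_det _).trans ?_
    rw [Fin.prod_univ_add]
    refine Nat.mul_le_mul ?_ ?_
    · rw [← Fin.prod_const]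
      refine prod_le_prod (fun _ _ => Nat.zero_le _) fun i _ => ?_
      refine col_sum S _ i n fun k => ?_
      simp only [Polynomial.sylvester, Matrix.of_apply, Fin.addCases_left]
    · rw [← Fin.prod_const]
      refine prod_le_prod (fun _ _ => Nat.zero_le _) fun i _ => ?_
      refine col_sum G _ i G.natDegree fun k => ?_
      simp only [Polynomial.sylvester, Matrix.of_apply, Fin.addCases_right]

end Pool.Agent.Helper83.OV.RES
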